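import Pool.Agent.L7h95.CD.Stm2

/-! Project CD, part DJ1. -/

set_option autoImplicit false

namespace Pool.Agent.L7h9.CD

open Finset Function Pool.Agent.L7h95.CD

theorem cntW (w m m' : ℕ) (hm' : m' ≤ w) :
    (univ.filter fun g : Fin w => m ≤ g.1 ∧ g.1 < m').card = m' - m := by
  rw [← Nat.card_Ico, ← card_map Fin.valEmbedding]
  congr 1
  ext i
  simp only [mem_map, mem_filter, mem_univ, true_and, Fin.valEmbedding_apply, mem_Ico]
  constructor
  · rintro ⟨g, hg, rfl⟩
    exact hg
  · intro hi
    exact ⟨⟨i, by omega⟩, hi, rfl⟩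

theorem injW {p r w : ℕ} (f : Fin w → Fin r) :
    Injective (fun g : Fin w => (Sum.inr (g, f g) : Fin p ⊕ (Fin w × Fin r))) := by
  intro a b hab
  have := Sum.inr_injective hab
  exact (Prod.ext_iff.mp this).1

theorem s_DJ1 : S_DJ1 := by
  intro p r w φ c γ v m m' hm hm'
  rw [← cntW w m m' hm']
  unfold hammingDist
  have h2 : (univ.filter fun i : Fin p ⊕ (Fin w × Fin r) => yw φ c γ v m i ≠ yw φ c γ v m' i) =
      (univ.filter fun g : Fin w => m ≤ g.1 ∧ g.1 < m').map
        ⟨fun g => Sum.inr (g, φ (c (v - 1)) g), injW (φ (c (v - 1)))⟩ := by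
    ext i
    simp only [mem_filter, mem_univ, true_and, mem_map, Embedding.coeFn_mk]
    constructor
    · intro hne
      rcases i with j | ⟨g, z⟩
      · exact absurd rfl hne
      · simp only [yw] at hne
        by_cases hz : φ (c (v - 1)) g = z
        · refine ⟨g, ?_, by simp only [hz]⟩
          by_contra hcon
          apply hne
          by_cases ha : m ≤ g.1
          · have hb : m' ≤ g.1 := by
              by_contra hb
              exact hcon ⟨ha, by omega⟩
            rw [if_pos (⟨ha, hz⟩ : _ ∧ _), if_pos (⟨hb, hz⟩ : _ ∧ _)]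
          · have hb : ¬ m' ≤ g.1 := by omega
            rw [if_neg (fun h => ha h.1), if_neg (fun h => hb h.1)]
        · exfalso
          apply hne
          rw [if_neg (fun h => hz h.2), if_neg (fun h => hz h.2)]
    · rintro ⟨g, ⟨ha, hb⟩, rfl⟩
      simp only [yw]
      intro heq
      have heq' := add_left_cancel heq
      have hb' : ¬ m' ≤ g.1 := by omega
      simp [ha, hb'] at heq'
  rw [h2, card_map]

end Pool.Agent.L7h9.CD
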