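import Pool.Agent.L7h95.CD.Stm

/-! Project CD, part GRA: Gray codes. -/

set_option autoImplicit false

namespace Pool.Agent.L7h9.CD

open Finset Function Pool.Agent.L7h95.CD

/-- the position of the flipped bit -/
def cc (p : ℕ) (hp : 1 ≤ p) (t : ℕ) : Fin p :=
  if h : padicValNat 2 (t + 1) < p then ⟨padicValNat 2 (t + 1), h⟩ else ⟨0, hp⟩

/-- the Gray code -/
def gg (p : ℕ) (t : ℕ) (j : Fin p) : ZMod 2 := ((t / 2 ^ j.1 + t / 2 ^ (j.1 + 1) : ℕ) : ZMod 2)

theorem dvd_iff (t k : ℕ) : 2 ^ k ∣ t + 1 ↔ k ≤ padicValNat 2 (t + 1) := by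
  have : Fact (Nat.Prime 2) := ⟨Nat.prime_two⟩
  exact padicValNat_dvd_iff_le (Nat.succ_ne_zero t)

theorem s_GRA : S_GRA := by
  intro p hp
  refine ⟨cc p hp, gg p, ?_, ?_⟩
  · intro t ht
    have hv : padicValNat 2 (t + 1) < p := by
      have h1 : 2 ^ padicValNat 2 (t + 1) ∣ t + 1 := (dvd_iff t _).mpr le_rfl
      have h2 := Nat.le_of_dvd (Nat.succ_pos t) h1
      exact (Nat.pow_lt_pow_iff_right (by norm_num : 1 < 2)).mp (lt_of_le_of_lt h2 ht)
    funext j
    rw [Pi.add_apply]
    have hc : cc p hp t = ⟨padicValNat 2 (t + 1), hv⟩ := by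
      unfold cc
      rw [dif_pos hv]
    rw [hc, Pi.single_apply]
    unfold gg
    rw [Nat.succ_div, Nat.succ_div]
    have e1 := dvd_iff t j.1
    have e2 := dvd_iff t (j.1 + 1)
    have h11 : (1 : ZMod 2) + 1 = 0 := by decide
    rcases lt_trichotomy j.1 (padicValNat 2 (t + 1)) with h | h | h
    · rw [if_pos (e1.mpr h.le), if_pos (e2.mpr h), if_neg (by
        intro hj
        have := congrArg Fin.val hj
        simp at this
        omega)]
      push_cast
      linear_combination h11
    · rw [if_pos (e1.mpr h.le), if_neg (fun hh => by have := e2.mp hh; omega), if_pos (by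
        apply Fin.ext
        exact h)]
      push_cast
      ring
    · rw [if_neg (fun hh => by have := e1.mp hh; omega), if_neg (fun hh => by have := e2.mp hh; omega),
        if_neg (by
        intro hj
        have := congrArg Fin.val hj
        simp at this
        omega)]
      push_cast
      ring
  · intro u v huv hv heq
    have key : ∀ i, i ≤ p → u / 2 ^ (p - i) = v / 2 ^ (p - i) := by
      intro i
      induction i with
      | zero =>
        intro _
        rw [Nat.sub_zero, Nat.div_eq_of_lt (huv.trans hv), Nat.div_eq_of_lt hv]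
      | succ i ih =>
        intro hi
        have h1 := ih (by omega)
        have h2 : p - i = (p - (i + 1)) + 1 := by omega
        have hlt : p - (i + 1) < p := by omega
        have h3 := congrFun heq ⟨p - (i + 1), hlt⟩
        unfold gg at h3
        simp only at h3
        rw [h2] at h1
        rw [← h1] at h3
        push_cast at h3
        have h4 := add_right_cancel h3
        have h5 : (u / 2 ^ (p - (i + 1))) % 2 = (v / 2 ^ (p - (i + 1))) % 2 :=
          (ZMod.natCast_eq_natCast_iff' _ _ 2).mp h4
        rw [pow_succ, ← Nat.div_div_eq_div_mul, ← Nat.div_div_eq_div_mul] at h1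
        omega
    have := key p le_rfl
    rw [Nat.sub_self, pow_zero, Nat.div_one, Nat.div_one] at this
    omega

end Pool.Agent.L7h9.CD
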